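import Pool.Agent.H92.SF.LUT
import Pool.Agent.H62.HIL.Eig

/-!
# MP_70ba79_ag, THEOREM S, row TRX: change of coordinates
-/

set_option autoImplicit false

namespace Pool.Agent.H68.SFU

open MvPolynomial
open Pool.Agent.H84.SM (dp cr dt)
open Pool.Agent.H3.SF Pool.Agent.H92.SF

namespace TRX

variable {k F : Type} [Field k] [Field F] [Algebra k F]

lemma aeval_sch (a b : k) (u : Fin 3 → F) (q : MvPolynomial (Fin 3) k) :
    aeval (uch a b u) (sch a b q) = aeval u q := by
  have h : (aeval (uch a b u)).comp (sch a b) = (aeval u : MvPolynomial (Fin 3) k →ₐ[k] F) := by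
    refine MvPolynomial.algHom_ext fun i => ?_
    fin_cases i <;> simp [sch, uch]
  exact DFunLike.congr_fun h q

lemma sch_sch (a b : k) (q : MvPolynomial (Fin 3) k) : sch a b (sch (-a) (-b) q) = q := by
  have h : (sch a b).comp (sch (-a) (-b)) = AlgHom.id k (MvPolynomial (Fin 3) k) := by
    refine MvPolynomial.algHom_ext fun i => ?_
    fin_cases i <;> simp [sch]
  exact DFunLike.congr_fun h q

lemma sch_sch' (a b : k) (q : MvPolynomial (Fin 3) k) : sch (-a) (-b) (sch a b q) = q := by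
  have h := sch_sch (-a) (-b) q
  rwa [neg_neg, neg_neg] at h

lemma aeval_uch (a b : k) (u : Fin 3 → F) (q : MvPolynomial (Fin 3) k) :
    aeval (uch a b u) q = aeval u (sch (-a) (-b) q) := by
  rw [← aeval_sch a b u, sch_sch]

lemma itg_uch (a b : k) (u : Fin 3 → F) (x : F) : Itg k (uch a b u) x ↔ Itg k u x := by
  constructor
  · rintro ⟨P, hP, hPx⟩
    refine ⟨P.map (sch (-a) (-b) : MvPolynomial (Fin 3) k →+* MvPolynomial (Fin 3) k),
      hP.map _, ?_⟩
    rw [Polynomial.eval₂_map]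
    have h : ((aeval u : MvPolynomial (Fin 3) k →ₐ[k] F) : MvPolynomial (Fin 3) k →+* F).comp
        (sch (-a) (-b) : MvPolynomial (Fin 3) k →+* MvPolynomial (Fin 3) k) =
        ((aeval (uch a b u) : MvPolynomial (Fin 3) k →ₐ[k] F) : MvPolynomial (Fin 3) k →+* F) :=
      RingHom.ext fun q => (aeval_uch a b u q).symm
    rw [h]
    exact hPx
  · rintro ⟨P, hP, hPx⟩
    refine ⟨P.map (sch a b : MvPolynomial (Fin 3) k →+* MvPolynomial (Fin 3) k),
      hP.map _, ?_⟩
    rw [Polynomial.eval₂_map]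
    have h : ((aeval (uch a b u) : MvPolynomial (Fin 3) k →ₐ[k] F) :
        MvPolynomial (Fin 3) k →+* F).comp
        (sch a b : MvPolynomial (Fin 3) k →+* MvPolynomial (Fin 3) k) =
        ((aeval u : MvPolynomial (Fin 3) k →ₐ[k] F) : MvPolynomial (Fin 3) k →+* F) :=
      RingHom.ext fun q => aeval_sch a b u q
    rw [h]
    exact hPx

lemma kF_uch (a b : k) (u : Fin 3 → F) : kF k (uch a b u) = kF k u := by
  apply le_antisymm
  · refine IntermediateField.adjoin_le_iff.mpr ?_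
    rintro _ ⟨i, rfl⟩
    have h : ∀ j, u j ∈ kF k u := fun j => IntermediateField.subset_adjoin k _ ⟨j, rfl⟩
    have hc : ∀ c : k, algebraMap k F c ∈ kF k u := fun c => (kF k u).algebraMap_mem c
    fin_cases i
    · exact sub_mem (h 0) (mul_mem (hc a) (h 2))
    · exact sub_mem (h 1) (mul_mem (hc b) (h 2))
    · exact h 2
  · refine IntermediateField.adjoin_le_iff.mpr ?_
    rintro _ ⟨i, rfl⟩
    have h : ∀ j, uch a b u j ∈ kF k (uch a b u) :=
      fun j => IntermediateField.subset_adjoin k _ ⟨j, rfl⟩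
    have hc : ∀ c : k, algebraMap k F c ∈ kF k (uch a b u) :=
      fun c => (kF k (uch a b u)).algebraMap_mem c
    have h0 : uch a b u 0 = u 0 - algebraMap k F a * u 2 := rfl
    have h1 : uch a b u 1 = u 1 - algebraMap k F b * u 2 := rfl
    have h2 : uch a b u 2 = u 2 := rfl
    fin_cases i
    · have h3 : u 0 = uch a b u 0 + algebraMap k F a * uch a b u 2 := by rw [h0, h2]; ring
      show u 0 ∈ _
      rw [h3]
      exact add_mem (h 0) (mul_mem (hc a) (h 2))
    · have h3 : u 1 = uch a b u 1 + algebraMap k F b * uch a b u 2 := by rw [h1, h2]; ring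
      show u 1 ∈ _
      rw [h3]
      exact add_mem (h 1) (mul_mem (hc b) (h 2))
    · exact h 2

lemma dch0 (a b : k) (dd : Fin 3 → Derivation k F F) : dch a b dd 0 = dd 0 := rfl
lemma dch1 (a b : k) (dd : Fin 3 → Derivation k F F) : dch a b dd 1 = dd 1 := rfl
lemma dch2 (a b : k) (dd : Fin 3 → Derivation k F F) (x : F) :
    dch a b dd 2 x = dd 2 x + a • dd 0 x + b • dd 1 x := rfl

lemma eu_uch (a b : k) (u : Fin 3 → F) (dd : Fin 3 → Derivation k F F) (x : F) :
    eu (uch a b u) (dch a b dd) x = eu u dd x := by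
  unfold eu
  rw [Fin.sum_univ_three, Fin.sum_univ_three]
  simp only [Derivation.add_apply, Derivation.smul_apply, smul_eq_mul, dch0, dch1, dch2]
  show (u 0 - algebraMap k F a * u 2) * dd 0 x + (u 1 - algebraMap k F b * u 2) * dd 1 x +
    u 2 * (dd 2 x + a • dd 0 x + b • dd 1 x) = _
  rw [Algebra.smul_def, Algebra.smul_def]
  ring

lemma hm_uch (a b : k) (u : Fin 3 → F) (dd : Fin 3 → Derivation k F F) (t : ℤ) (x : F) :
    Hm k (eu (uch a b u) (dch a b dd)) t x ↔ Hm k (eu u dd) t x := by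
  unfold Hm
  rw [eu_uch]

lemma BB_uch (a b : k) (u : Fin 3 → F) (dd : Fin 3 → Derivation k F F) (t : ℤ) :
    BB k (uch a b u) (eu (uch a b u) (dch a b dd)) t = BB k u (eu u dd) t := by
  ext x
  show (Itg k (uch a b u) x ∧ Hm k _ t x) ↔ (Itg k u x ∧ Hm k _ t x)
  rw [itg_uch, hm_uch]

lemma sch_hom (a b : k) {q : MvPolynomial (Fin 3) k} {n : ℕ} (hq : q.IsHomogeneous n) :
    (sch a b q).IsHomogeneous n := by
  have h := hq.aeval (n := 1) (![X 0 + C a * X 2, X 1 + C b * X 2, X 2] :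
    Fin 3 → MvPolynomial (Fin 3) k) (fun i => by
    have hX : ∀ j : Fin 3, (X j : MvPolynomial (Fin 3) k).IsHomogeneous 1 :=
      fun j => isHomogeneous_X k j
    fin_cases i
    · show (X 0 + C a * X 2 : MvPolynomial (Fin 3) k).IsHomogeneous 1
      exact (hX 0).add ((hX 2).C_mul a)
    · show (X 1 + C b * X 2 : MvPolynomial (Fin 3) k).IsHomogeneous 1
      exact (hX 1).add ((hX 2).C_mul b)
    · show (X 2 : MvPolynomial (Fin 3) k).IsHomogeneous 1
      exact hX 2)
  rw [one_mul] at h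
  exact h

/-! ### The certificate -/

variable (k) in
/-- integral and homogeneous -/
def P (u : Fin 3 → F) (E : Derivation k F F) (t : ℤ) (x : F) : Prop := Itg k u x ∧ Hm k E t x

variable {u : Fin 3 → F} {E : Derivation k F F}

lemma P.add {t : ℤ} {x y : F} (hx : P k u E t x) (hy : P k u E t y) : P k u E t (x + y) :=
  ⟨(Bb k u).add_mem hx.1 hy.1, Pool.Agent.H62.HIL.hm_add hx.2 hy.2⟩

lemma P.mul {s t : ℤ} {x y : F} (hx : P k u E s x) (hy : P k u E t y) :
    P k u E (s + t) (x * y) :=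
  ⟨(Bb k u).mul_mem hx.1 hy.1, Pool.Agent.H62.HIL.hm_mul hx.2 hy.2⟩

lemma P.pow {x : F} (hx : P k u E 1 x) (n : ℕ) : P k u E n (x ^ n) := by
  refine ⟨(Bb k u).pow_mem hx.1 n, ?_⟩
  have h := Pool.Agent.H62.HIL.hm_pow hx.2 n
  rwa [mul_one] at h

lemma P.const (c : k) : P k u E 0 (algebraMap k F c) :=
  ⟨(Bb k u).algebraMap_mem c, Pool.Agent.H62.HIL.hm_algebraMap c⟩

lemma P.zero (t : ℤ) : P k u E t 0 := ⟨(Bb k u).zero_mem, Pool.Agent.H62.HIL.hm_zero t⟩

lemma P.cast {t : ℤ} (n : ℕ) {x : F} (hx : P k u E t x) : P k u E t (x * n) := by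
  have h := hx.mul (P.const (u := u) (E := E) (n : k))
  rwa [add_zero, map_natCast] at h

/-- combinations of the derivatives -/
def S (u : Fin 3 → F) (E : Derivation k F F) (m : ℤ) (g : Fin 3 → F) (n : ℤ) (z : F) : Prop :=
  ∃ e : Fin 3 → F, (∀ l, P k u E (n + 1 - m) (e l)) ∧ z = ∑ l, e l * g l

lemma S.add {m n : ℤ} {g : Fin 3 → F} {z w : F} (hz : S u E m g n z) (hw : S u E m g n w) :
    S u E m g n (z + w) := by
  obtain ⟨e, he, rfl⟩ := hz
  obtain ⟨e', he', rfl⟩ := hw
  refine ⟨fun l => e l + e' l, fun l => (he l).add (he' l), ?_⟩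
  rw [← Finset.sum_add_distrib]
  exact Finset.sum_congr rfl fun l _ => by ring

lemma S.zero {m n : ℤ} {g : Fin 3 → F} : S u E m g n 0 :=
  ⟨fun _ => 0, fun _ => P.zero _, by simp⟩

lemma S.mul {m n p : ℤ} {g : Fin 3 → F} {z w : F} (hz : S u E m g n z) (hw : P k u E p w) :
    S u E m g (p + n) (w * z) := by
  obtain ⟨e, he, rfl⟩ := hz
  refine ⟨fun l => w * e l, fun l => ?_, ?_⟩
  · have h := hw.mul (he l)
    have h2 : p + (n + 1 - m) = p + n + 1 - m := by ring
    rwa [h2] at h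
  · rw [Finset.mul_sum]
    exact Finset.sum_congr rfl fun l _ => by ring

lemma S.bin {m : ℤ} {c : ℕ} {g : Fin 3 → F} {x y : F} (hx : P k u E 1 x) (hy : P k u E 1 y)
    (hxS : S u E m g c (x ^ c)) (hyS : S u E m g c (y ^ c)) :
    S u E m g ((2 * c : ℕ) : ℤ) ((x + y) ^ (2 * c)) := by
  rw [add_pow]
  refine Finset.sum_induction _ (fun z => S u E m g ((2 * c : ℕ) : ℤ) z) (fun _ _ h h' => h.add h')
    S.zero fun n hn => ?_
  rw [Finset.mem_range] at hn
  rcases le_or_gt c n with hc | hc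
  · have h1 : x ^ n * y ^ (2 * c - n) * ((2 * c).choose n : F) =
        (x ^ (n - c) * y ^ (2 * c - n) * ((2 * c).choose n : F)) * x ^ c := by
      have h2 : x ^ n = x ^ (n - c) * x ^ c := by rw [← pow_add]; congr 1; omega
      rw [h2]; ring
    rw [h1]
    have h3 := hxS.mul (((hx.pow (n - c)).mul (hy.pow (2 * c - n))).cast ((2 * c).choose n))
    have h4 : (((n - c : ℕ) : ℤ) + ((2 * c - n : ℕ) : ℤ)) + (c : ℤ) = ((2 * c : ℕ) : ℤ) := by
      omega
    rwa [h4] at h3
  · have h1 : x ^ n * y ^ (2 * c - n) * ((2 * c).choose n : F) =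
        (x ^ n * y ^ (c - n) * ((2 * c).choose n : F)) * y ^ c := by
      have h2 : y ^ (2 * c - n) = y ^ (c - n) * y ^ c := by rw [← pow_add]; congr 1; omega
      rw [h2]; ring
    rw [h1]
    have h3 := hyS.mul (((hx.pow n).mul (hy.pow (c - n))).cast ((2 * c).choose n))
    have h4 : (((n : ℕ) : ℤ) + ((c - n : ℕ) : ℤ)) + (c : ℤ) = ((2 * c : ℕ) : ℤ) := by
      omega
    rwa [h4] at h3

lemma S.sub {m : ℤ} {c : ℕ} {g : Fin 3 → F} {x y : F} (a : k) (hx : P k u E 1 x)
    (hy : P k u E 1 y) (hxS : S u E m g c (x ^ c)) (hyS : S u E m g c (y ^ c)) :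
    S u E m g ((2 * c : ℕ) : ℤ) ((x - algebraMap k F a * y) ^ (2 * c)) := by
  have h1 : P k u E 1 (algebraMap k F (-a) * y) := by
    have h := (P.const (u := u) (E := E) (-a)).mul hy
    rwa [zero_add] at h
  have h2 : S u E m g c ((algebraMap k F (-a) * y) ^ c) := by
    rw [mul_pow, ← map_pow]
    have h := hyS.mul (P.const (u := u) (E := E) ((-a) ^ c))
    rwa [zero_add] at h
  have h3 := S.bin hx h1 hxS h2
  have h4 : x + algebraMap k F (-a) * y = x - algebraMap k F a * y := by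
    rw [map_neg]; ring
  rwa [h4] at h3

lemma S.change {dd : Fin 3 → Derivation k F F} {m : ℤ} {n : ℤ} {G z : F} (a b : k)
    (h : S u (eu u dd) m (fun l => dd l G) n z) :
    S (uch a b u) (eu (uch a b u) (dch a b dd)) m (fun l => dch a b dd l G) n z := by
  obtain ⟨e, he, rfl⟩ := h
  have hP : ∀ t x, P k u (eu u dd) t x → P k (uch a b u) (eu (uch a b u) (dch a b dd)) t x :=
    fun t x hx => ⟨(itg_uch a b u x).mpr hx.1, (hm_uch a b u dd t x).mpr hx.2⟩
  have hs : ∀ (c : k) (x y : F) (t : ℤ), P k u (eu u dd) t x → P k u (eu u dd) t y →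
      P k u (eu u dd) t (x - algebraMap k F c * y) := by
    intro c x y t hx hy
    have h1 := (P.const (u := u) (E := eu u dd) (-c)).mul hy
    rw [zero_add] at h1
    have h2 := hx.add h1
    have h4 : x + algebraMap k F (-c) * y = x - algebraMap k F c * y := by
      rw [map_neg]; ring
    rwa [h4] at h2
  refine ⟨![e 0 - algebraMap k F a * e 2, e 1 - algebraMap k F b * e 2, e 2], ?_, ?_⟩
  · intro l
    fin_cases l
    · exact hP _ _ (hs a _ _ _ (he 0) (he 2))
    · exact hP _ _ (hs b _ _ _ (he 1) (he 2))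
    · exact hP _ _ (he 2)
  · rw [Fin.sum_univ_three, Fin.sum_univ_three]
    simp only [dch0, dch1, dch2]
    show _ = (e 0 - algebraMap k F a * e 2) * dd 0 G + (e 1 - algebraMap k F b * e 2) * dd 1 G +
      e 2 * (dd 2 G + a • dd 0 G + b • dd 1 G)
    rw [Algebra.smul_def, Algebra.smul_def]
    ring

lemma itg_u (u : Fin 3 → F) (i : Fin 3) : Itg k u (u i) := by
  have h := ((aeval u : MvPolynomial (Fin 3) k →ₐ[k] F) :
    MvPolynomial (Fin 3) k →+* F).isIntegralElem_map (x := X i)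
  have h2 : ((aeval u : MvPolynomial (Fin 3) k →ₐ[k] F) :
    MvPolynomial (Fin 3) k →+* F) (X i) = u i := aeval_X u i
  rwa [h2] at h

end TRX

open TRX

theorem pf_TRX (hDAT : T_DAT) : T_TRX := by
  intro k F _ _ _ _ _ u dd δ j0 c0 J m G hB a b
  obtain ⟨-, -, -, -, hu1, -, -, -, -, -⟩ := hDAT k F u dd δ j0 c0 J m G hB
  have hkF := kF_uch a b u
  refine ⟨?_, itg_uch a b u, hkF, aeval_sch a b u, eu_uch a b u dd⟩
  have hsm : ∀ (c : k) (x : F), Itg k u x → Itg k u (c • x) := fun c x hx =>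
    (Bb k u).smul_mem hx c
  have hadd : ∀ (x y : F), Itg k u x → Itg k u y → Itg k u (x + y) := fun x y hx hy =>
    (Bb k u).add_mem hx hy
  have hu : ∀ i, P k u (eu u dd) 1 (u i) := fun i => ⟨itg_u u i, hu1 i⟩
  refine
    { ind := ?_
      rank := ?_
      pos := hB.pos
      du := ?_
      comm := ?_
      Jh := sch_hom a b hB.Jh
      J0 := ?_
      Jd := ?_
      neg := fun t ht => by rw [BB_uch]; exact hB.neg t ht
      fin := fun t => by rw [BB_uch]; exact hB.fin t
      up := fun t => by rw [BB_uch]; exact hB.up t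
      lo := fun t ht => by rw [BB_uch]; exact hB.lo t ht
      big := hB.big
      ne := hB.ne
      itg := (itg_uch a b u G).mpr hB.itg
      hom := (hm_uch a b u dd m G).mpr hB.hom
      cert := ?_
      prm := fun x y hx hy hxy => by
        rw [itg_uch] at hx hy hxy
        rw [itg_uch, itg_uch]
        exact hB.prm x y hx hy hxy }
  · intro p q hpq
    have h1 : aeval u (sch (-a) (-b) p) = aeval u (sch (-a) (-b) q) := by
      rw [← aeval_uch, ← aeval_uch]
      exact hpq
    have h2 := hB.ind h1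
    have h3 := congrArg (sch a b) h2
    rwa [sch_sch, sch_sch] at h3
  · rw [hkF]
    exact hB.rank
  · have h := hB.du
    have hc : ∀ (l : Fin 3) (c : k), dd l (algebraMap k F c) = 0 :=
      fun l c => Derivation.map_algebraMap _ _
    intro l j
    fin_cases l <;> fin_cases j <;>
      simp [dch, uch, h, hc, Derivation.leibniz, Algebra.smul_def]
  · have hs : ∀ (l : Fin 3) (c : k) (x : F), dd l (c • x) = c • dd l x :=
      fun l c x => (dd l).map_smul c x
    have h := hB.comm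
    intro l j x
    fin_cases l <;> fin_cases j
    · rfl
    · exact h 0 1 x
    · show dd 0 (dd 2 x + a • dd 0 x + b • dd 1 x) =
        dd 2 (dd 0 x) + a • dd 0 (dd 0 x) + b • dd 1 (dd 0 x)
      rw [map_add, map_add, hs, hs, h 0 2, h 0 1]
    · exact h 1 0 x
    · rfl
    · show dd 1 (dd 2 x + a • dd 0 x + b • dd 1 x) =
        dd 2 (dd 1 x) + a • dd 0 (dd 1 x) + b • dd 1 (dd 1 x)
      rw [map_add, map_add, hs, hs, h 1 2, h 1 0]
    · show dd 2 (dd 0 x) + a • dd 0 (dd 0 x) + b • dd 1 (dd 0 x) =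
        dd 0 (dd 2 x + a • dd 0 x + b • dd 1 x)
      rw [map_add, map_add, hs, hs, h 0 2, h 0 1]
    · show dd 2 (dd 1 x) + a • dd 0 (dd 1 x) + b • dd 1 (dd 1 x) =
        dd 1 (dd 2 x + a • dd 0 x + b • dd 1 x)
      rw [map_add, map_add, hs, hs, h 1 2, h 1 0]
    · rfl
  · intro h0
    apply hB.J0
    have h := congrArg (sch (-a) (-b)) h0
    rwa [sch_sch', map_zero] at h
  · intro l x hx
    rw [itg_uch] at hx ⊢
    rw [aeval_sch]
    fin_cases l
    · exact hB.Jd 0 x hx
    · exact hB.Jd 1 x hx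
    · show Itg k u (aeval u J * (dd 2 x + a • dd 0 x + b • dd 1 x))
      rw [mul_add, mul_add, mul_smul_comm, mul_smul_comm]
      exact hadd _ _ (hadd _ _ (hB.Jd 2 x hx) (hsm a _ (hB.Jd 0 x hx))) (hsm b _ (hB.Jd 1 x hx))
  · obtain ⟨c, hc⟩ := hB.cert
    have hS : ∀ i, S u (eu u dd) m (fun l => dd l G) c (u i ^ c) := by
      intro i
      obtain ⟨e, he, h1⟩ := hc i
      exact ⟨e, he, h1⟩
    have hT : ∀ i, S u (eu u dd) m (fun l => dd l G) ((2 * c : ℕ) : ℤ) (uch a b u i ^ (2 * c)) := by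
      intro i
      fin_cases i
      · exact S.sub a (hu 0) (hu 2) (hS 0) (hS 2)
      · exact S.sub b (hu 1) (hu 2) (hS 1) (hS 2)
      · have h1 := (hS 2).mul ((hu 2).pow c)
        have h2 : (c : ℤ) + c = ((2 * c : ℕ) : ℤ) := by push_cast; ring
        have h3 : u 2 ^ c * u 2 ^ c = uch a b u 2 ^ (2 * c) := by
          show u 2 ^ c * u 2 ^ c = u 2 ^ (2 * c)
          rw [← pow_add]; congr 1; ring
        rw [h2, h3] at h1
        exact h1
    refine ⟨2 * c, fun i => ?_⟩
    obtain ⟨e, he, h1⟩ := (hT i).change a b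
    exact ⟨e, he, h1⟩

end Pool.Agent.H68.SFU
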